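import Mathlib

/-!
# Disjointly representable sets: lower bounds by products
-/

set_option autoImplicit false

namespace Pool.Agent.J6H37.DR

open Finset

/-- The family `𝓕` contains `t` distinct members `F_1, ..., F_t` which are disjointly representable: there
are points `x_1, ..., x_t` with `x_i ∈ F_j` exactly when `i = j`. -/
def Has {X : Type} (t : ℕ) (𝓕 : Finset (Finset X)) : Prop :=
  ∃ F : Fin t → Finset X, Function.Injective F ∧ (∀ i, F i ∈ 𝓕) ∧
    ∃ x : Fin t → X, ∀ i j, x i ∈ F j ↔ i = j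

/-- `r(n,t)`: the least `k` such that every family of at least `k` subsets of an `n`-element set
contains `t` disjointly representable members. -/
noncomputable def r (n t : ℕ) : ℕ :=
  sInf {k | ∀ 𝓕 : Finset (Finset (Fin n)), k ≤ 𝓕.card → Has t 𝓕}

theorem has_of {X : Type} {t : ℕ} {𝓕 : Finset (Finset X)} (F : Fin t → Finset X)
    (hF : ∀ i, F i ∈ 𝓕) (x : Fin t → X) (hx : ∀ i j, x i ∈ F j ↔ i = j) : Has t 𝓕 :=
  ⟨F, fun i j h => (hx i j).1 (by rw [← h]; exact (hx i i).2 rfl), hF, x, hx⟩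

theorem r_mem (n t : ℕ) (𝓕 : Finset (Finset (Fin n))) (h : r n t ≤ 𝓕.card) : Has t 𝓕 := by
  have hne : {k | ∀ 𝓕 : Finset (Finset (Fin n)), k ≤ 𝓕.card → Has t 𝓕}.Nonempty := by
    refine ⟨Fintype.card (Finset (Fin n)) + 1, fun 𝓕 h => ?_⟩
    have := Finset.card_le_univ 𝓕
    omega
  exact Nat.sInf_mem hne 𝓕 h

theorem lt_r {n t : ℕ} {𝓕 : Finset (Finset (Fin n))} (h : ¬ Has t 𝓕) : 𝓕.card < r n t := by
  by_contra hc
  exact h (r_mem n t 𝓕 (not_lt.1 hc))

theorem r_le {n t k : ℕ} (h : ∀ 𝓕 : Finset (Finset (Fin n)), k ≤ 𝓕.card → Has t 𝓕) : r n t ≤ k :=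
  Nat.sInf_le h

theorem exists_max (n t : ℕ) : ∃ 𝓕 : Finset (Finset (Fin n)), ¬ Has (t + 1) 𝓕 ∧
    𝓕.card = r n (t + 1) - 1 := by
  have h0 : 0 < r n (t + 1) := by
    have : ¬ Has (t + 1) (∅ : Finset (Finset (Fin n))) := by
      rintro ⟨F, _, hF, _⟩
      exact absurd (hF 0) (Finset.notMem_empty _)
    exact (Nat.zero_le _).trans_lt (lt_r this)
  have h1 : ¬ ∀ 𝓕 : Finset (Finset (Fin n)), r n (t + 1) - 1 ≤ 𝓕.card → Has (t + 1) 𝓕 := by
    intro h
    have := r_le h
    omega
  push Not at h1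
  obtain ⟨𝓕, h2, h3⟩ := h1
  refine ⟨𝓕, h3, ?_⟩
  have := lt_r h3
  omega

/-- families on any set with `n` elements -/
theorem lt_r' {X : Type} [Fintype X] [DecidableEq X] {t : ℕ} {𝓕 : Finset (Finset X)}
    (h : ¬ Has t 𝓕) : 𝓕.card < r (Fintype.card X) t := by
  let e := Fintype.equivFin X
  have h1 : ¬ Has t (𝓕.map (Finset.mapEmbedding e.toEmbedding).toEmbedding) := by
    rintro ⟨F, hF, hm, x, hx⟩
    apply h
    have h2 : ∀ i, ∃ A ∈ 𝓕, A.map e.toEmbedding = F i := by
      intro i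
      obtain ⟨A, hA, hAF⟩ := Finset.mem_map.1 (hm i)
      exact ⟨A, hA, hAF⟩
    choose A hA hAF using h2
    refine has_of A hA (fun i => e.symm (x i)) fun i j => ?_
    rw [← hx i j, ← hAF j, Finset.mem_map]
    constructor
    · intro h3
      exact ⟨_, h3, e.apply_symm_apply _⟩
    · rintro ⟨y, hy, hyx⟩
      have : y = e.symm (x i) := by
        rw [← hyx]
        exact (e.symm_apply_apply y).symm
      rw [← this]
      exact hy
  have h2 := lt_r h1
  rwa [Finset.card_map] at h2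

/-- the product of two families -/
def prod {X Y : Type} [DecidableEq X] [DecidableEq Y] (𝓐 : Finset (Finset X))
    (𝓑 : Finset (Finset Y)) : Finset (Finset (X ⊕ Y)) :=
  (𝓐 ×ˢ 𝓑).image fun p => p.1.disjSum p.2

theorem card_prod {X Y : Type} [DecidableEq X] [DecidableEq Y] (𝓐 : Finset (Finset X))
    (𝓑 : Finset (Finset Y)) : (prod 𝓐 𝓑).card = 𝓐.card * 𝓑.card := by
  unfold prod
  rw [Finset.card_image_of_injective, Finset.card_product]
  rintro ⟨A, B⟩ ⟨A', B'⟩ h
  simp only at h
  refine Prod.ext ?_ ?_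
  · ext a
    simp only
    rw [← Finset.inl_mem_disjSum (t := B), h, Finset.inl_mem_disjSum]
  · ext a
    simp only
    rw [← Finset.inr_mem_disjSum (s := A), h, Finset.inr_mem_disjSum]

theorem not_has_prod {X Y : Type} [DecidableEq X] [DecidableEq Y] {𝓐 : Finset (Finset X)}
    {𝓑 : Finset (Finset Y)} {s t : ℕ} (hA : ¬ Has (s + 1) 𝓐) (hB : ¬ Has (t + 1) 𝓑) :
    ¬ Has (s + t + 1) (prod 𝓐 𝓑) := by
  rintro ⟨F, hF, hm, x, hx⟩
  have h2 : ∀ i, ∃ A ∈ 𝓐, ∃ B ∈ 𝓑, A.disjSum B = F i := by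
    intro i
    obtain ⟨⟨A, B⟩, hAB, h⟩ := Finset.mem_image.1 (hm i)
    rw [Finset.mem_product] at hAB
    exact ⟨A, hAB.1, B, hAB.2, h⟩
  choose A hA1 B hB1 hAB using h2
  set I : Finset (Fin (s + t + 1)) := univ.filter fun i => (x i).isLeft = true with hI
  set J : Finset (Fin (s + t + 1)) := univ.filter fun i => ¬ (x i).isLeft = true with hJ
  have hcard : I.card + J.card = s + t + 1 := by
    rw [hI, hJ, Finset.card_filter_add_card_filter_not, Finset.card_univ, Fintype.card_fin]
  rcases Nat.lt_or_ge s I.card with h | h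
  · apply hA
    obtain ⟨e⟩ : Nonempty (Fin (s + 1) ↪ I) := by
      rw [Function.Embedding.nonempty_iff_card_le, Fintype.card_fin, Fintype.card_coe]
      exact h
    have h3 : ∀ i : I, ∃ a : X, x i = Sum.inl a := by
      rintro ⟨i, hi⟩
      rw [hI, mem_filter] at hi
      exact Sum.isLeft_iff.1 hi.2
    choose a ha using h3
    refine has_of (fun i => A (e i)) (fun i => hA1 _) (fun i => a (e i)) fun i j => ?_
    have h4 := hx (e i) (e j)
    rw [ha, ← hAB, Finset.inl_mem_disjSum] at h4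
    rw [h4]
    constructor
    · intro h5
      exact e.injective (Subtype.ext h5)
    · rintro rfl
      rfl
  · apply hB
    obtain ⟨e⟩ : Nonempty (Fin (t + 1) ↪ J) := by
      rw [Function.Embedding.nonempty_iff_card_le, Fintype.card_fin, Fintype.card_coe]
      omega
    have h3 : ∀ i : J, ∃ a : Y, x i = Sum.inr a := by
      rintro ⟨i, hi⟩
      rw [hJ, mem_filter] at hi
      rw [Bool.not_eq_true, Sum.isLeft_eq_false] at hi
      exact Sum.isRight_iff.1 hi.2
    choose a ha using h3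
    refine has_of (fun i => B (e i)) (fun i => hB1 _) (fun i => a (e i)) fun i j => ?_
    have h4 := hx (e i) (e j)
    rw [ha, ← hAB, Finset.inr_mem_disjSum] at h4
    rw [h4]
    constructor
    · intro h5
      exact e.injective (Subtype.ext h5)
    · rintro rfl
      rfl

/-- super-multiplicativity -/
theorem supermul (m n s t : ℕ) :
    (r m (s + 1) - 1) * (r n (t + 1) - 1) ≤ r (m + n) (s + t + 1) - 1 := by
  obtain ⟨𝓐, hA, hA'⟩ := exists_max m s
  obtain ⟨𝓑, hB, hB'⟩ := exists_max n t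
  have h := lt_r' (not_has_prod hA hB)
  rw [card_prod, hA', hB', Fintype.card_sum, Fintype.card_fin, Fintype.card_fin] at h
  omega

/-- the initial segments -/
theorem chain (n : ℕ) : n + 1 < r n 2 := by
  let 𝓕 : Finset (Finset (Fin n)) := (range (n + 1)).image fun k => univ.filter fun x => x.val < k
  have hc : 𝓕.card = n + 1 := by
    change ((range (n + 1)).image _).card = _
    rw [Finset.card_image_of_injOn, card_range]
    intro a ha b hb hab
    simp only [coe_range, Set.mem_Iio] at ha hb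
    by_contra hne
    rcases lt_or_gt_of_ne hne with h | h
    · have h1 : (⟨a, by omega⟩ : Fin n) ∈ univ.filter fun x : Fin n => x.val < b := by simp [h]
      simp only at hab
      rw [← hab] at h1
      simp at h1
    · have h1 : (⟨b, by omega⟩ : Fin n) ∈ univ.filter fun x : Fin n => x.val < a := by simp [h]
      simp only at hab
      rw [hab] at h1
      simp at h1
  have hn : ¬ Has 2 𝓕 := by
    rintro ⟨F, _, hm, x, hx⟩
    obtain ⟨a, _, ha⟩ := mem_image.1 (hm 0)
    obtain ⟨b, _, hb⟩ := mem_image.1 (hm 1)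
    have h00 := (hx 0 0).2 rfl
    have h11 := (hx 1 1).2 rfl
    have h01 := (hx 0 1).not.2 (by decide)
    have h10 := (hx 1 0).not.2 (by decide)
    rw [← ha] at h00 h10
    rw [← hb] at h11 h01
    simp only [mem_filter, mem_univ, true_and] at h00 h10 h11 h01
    omega
  rw [← hc]
  exact lt_r hn

end Pool.Agent.J6H37.DR
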