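import Pool.Agent.J6H37.DR.Base

/-!
# Disjointly representable sets: the exact value
-/

set_option autoImplicit false

namespace Pool.Agent.J6H37.DR

open Finset

/-- The sets which miss fewer than `t` elements below their maximum: `S` such that for all `x ∈ S`
fewer than `t` elements smaller than `x` are not in `S`. -/
def fam (n t : ℕ) : Finset (Finset (Fin n)) :=
  univ.filter fun S => ∀ x ∈ S, ((univ : Finset (Fin n)).filter fun y => y < x ∧ y ∉ S).card < t

theorem mem_fam {n t : ℕ} (S : Finset (Fin n)) : S ∈ fam n t ↔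
    ∀ x ∈ S, ((univ : Finset (Fin n)).filter fun y => y < x ∧ y ∉ S).card < t := by
  simp [fam]

/-- The family contains no `t + 1` disjointly representable members. -/
theorem not_has_fam (n t : ℕ) : ¬ Has (t + 1) (fam n t) := by
  rintro ⟨F, _, hm, x, hx⟩
  have hinj : Function.Injective x := by
    intro i j h
    exact (hx i j).1 (by rw [h]; exact (hx j j).2 rfl)
  obtain ⟨k, -, hk⟩ := Finset.exists_max_image (univ : Finset (Fin (t + 1))) x ⟨0, mem_univ _⟩
  have h1 := (mem_fam _).1 (hm k) (x k) ((hx k k).2 rfl)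
  have h2 : ((univ : Finset (Fin (t + 1))).erase k).image x ⊆
      (univ : Finset (Fin n)).filter fun y => y < x k ∧ y ∉ F k := by
    intro y hy
    obtain ⟨i, hi, rfl⟩ := mem_image.1 hy
    rw [mem_filter]
    have hik : i ≠ k := (mem_erase.1 hi).1
    exact ⟨mem_univ _, lt_of_le_of_ne (hk i (mem_univ _)) (hinj.ne hik),
      fun h => hik ((hx i k).1 h)⟩
  have h3 := card_le_card h2
  rw [card_image_of_injective _ hinj, card_erase_of_mem (mem_univ _), card_univ,
    Fintype.card_fin] at h3
  omega

/-- Sauer-Shelah: many sets have many disjointly representable members. -/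
theorem has_of_card {n t : ℕ} {𝓕 : Finset (Finset (Fin n))}
    (h : ∑ i ∈ range (t + 1), n.choose i < 𝓕.card) : Has (t + 1) 𝓕 := by
  have h1 : t < 𝓕.vcDim := by
    by_contra hc
    rw [not_lt] at hc
    have h2 := (card_le_card_shatterer 𝓕).trans (card_shatterer_le_sum_vcDim (𝒜 := 𝓕))
    rw [Fintype.card_fin] at h2
    have h3 : ∑ i ∈ Iic 𝓕.vcDim, n.choose i ≤ ∑ i ∈ range (t + 1), n.choose i := by
      apply Finset.sum_le_sum_of_subset
      intro i hi
      rw [mem_Iic] at hi
      rw [mem_range]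
      omega
    omega
  obtain ⟨T, hT, hTc⟩ : ∃ T, 𝓕.Shatters T ∧ t + 1 ≤ T.card := by
    by_contra hc
    push Not at hc
    have : 𝓕.vcDim ≤ t := by
      unfold vcDim
      apply Finset.sup_le
      intro T hT
      have := hc T (mem_shatterer.1 hT)
      omega
    omega
  obtain ⟨U, hUT, hU⟩ := Finset.exists_subset_card_eq hTc
  have hS := hT.mono_right hUT
  let e : Fin (t + 1) ≃ U := (finCongr hU.symm).trans U.equivFin.symm
  have h4 : ∀ i, ∃ F ∈ 𝓕, U ∩ F = {(e i : Fin n)} := by
    intro i
    exact hS (Finset.singleton_subset_iff.2 (e i).2)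
  choose F hF hFe using h4
  refine has_of F hF (fun i => (e i : Fin n)) fun i j => ?_
  have h5 : (e i : Fin n) ∈ F j ↔ (e i : Fin n) ∈ U ∩ F j := by
    rw [mem_inter]
    exact ⟨fun h => ⟨(e i).2, h⟩, fun h => h.2⟩
  rw [h5, hFe, mem_singleton]
  constructor
  · intro h
    exact e.injective (Subtype.ext h)
  · rintro rfl
    rfl

/-- the complement below the maximum, together with the maximum -/
def phi {n : ℕ} (A : Finset (Fin n)) : Finset (Fin n) :=
  univ.filter fun y => (∃ a ∈ A, y ≤ a) ∧ (y ∈ A → ∀ a ∈ A, a ≤ y)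

theorem mem_phi {n : ℕ} {A : Finset (Fin n)} {M : Fin n} (hM : M ∈ A) (hmax : ∀ a ∈ A, a ≤ M)
    (y : Fin n) : y ∈ phi A ↔ y ≤ M ∧ (y ∈ A → y = M) := by
  unfold phi
  rw [mem_filter]
  constructor
  · rintro ⟨-, ⟨a, ha, hya⟩, h⟩
    exact ⟨hya.trans (hmax a ha), fun hy => le_antisymm (hmax y hy) (h hy M hM)⟩
  · rintro ⟨h1, h2⟩
    exact ⟨mem_univ _, ⟨M, hM, h1⟩, fun hy a ha => (h2 hy) ▸ hmax a ha⟩

theorem phi_empty (n : ℕ) : phi (∅ : Finset (Fin n)) = ∅ := by
  ext y
  simp [phi]

theorem phi_phi {n : ℕ} (A : Finset (Fin n)) : phi (phi A) = A := by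
  rcases A.eq_empty_or_nonempty with rfl | hA
  · rw [phi_empty, phi_empty]
  · have hM := A.max'_mem hA
    have hmax : ∀ a ∈ A, a ≤ A.max' hA := fun a ha => A.le_max' a ha
    generalize A.max' hA = M at hM hmax
    have hM' : M ∈ phi A := (mem_phi hM hmax M).2 ⟨le_rfl, fun _ => rfl⟩
    have hmax' : ∀ a ∈ phi A, a ≤ M := fun a ha => ((mem_phi hM hmax a).1 ha).1
    ext y
    rw [mem_phi hM' hmax', mem_phi hM hmax]
    constructor
    · rintro ⟨h1, h2⟩
      by_contra hy
      have := h2 ⟨h1, fun h => absurd h hy⟩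
      exact hy (this ▸ hM)
    · intro hy
      exact ⟨hmax y hy, fun h => h.2 hy⟩

theorem card_small (n t : ℕ) : ((univ : Finset (Finset (Fin n))).filter fun A => A.card < t).card =
    ∑ i ∈ range t, n.choose i := by
  have h1 : ((univ : Finset (Finset (Fin n))).filter fun A => A.card < t) =
      (range t).biUnion fun i => powersetCard i (univ : Finset (Fin n)) := by
    ext A
    simp [mem_powersetCard]
  rw [h1, card_biUnion]
  · refine sum_congr rfl fun i _ => ?_
    rw [card_powersetCard, card_univ, Fintype.card_fin]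
  · intro i _ j _ hij
    rw [Function.onFun, Finset.disjoint_left]
    intro A h1 h2
    rw [mem_powersetCard] at h1 h2
    exact hij (h1.2.symm.trans h2.2)

theorem card_fam (n t : ℕ) : ∑ i ∈ range (t + 1), n.choose i ≤ (fam n t).card := by
  rw [← card_small]
  refine Finset.card_le_card_of_injOn phi ?_ ?_
  · intro A hA
    rw [coe_filter, Set.mem_ofPred_eq] at hA
    rw [mem_coe, mem_fam]
    intro x hx
    rcases A.eq_empty_or_nonempty with rfl | hne
    · rw [phi_empty] at hx
      exact absurd hx (notMem_empty _)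
    · have hM := A.max'_mem hne
      have hmax : ∀ a ∈ A, a ≤ A.max' hne := fun a ha => A.le_max' a ha
      generalize A.max' hne = M at hM hmax
      have h1 : ((univ : Finset (Fin n)).filter fun y => y < x ∧ y ∉ phi A) ⊆ A.erase M := by
        intro y hy
        rw [mem_filter] at hy
        obtain ⟨-, h2, h3⟩ := hy
        rw [mem_phi hM hmax] at h3 hx
        have h4 : y < M := h2.trans_le hx.1
        rw [mem_erase]
        refine ⟨h4.ne, ?_⟩
        by_contra hc
        exact h3 ⟨h4.le, fun h => absurd h hc⟩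
      have h2 := card_le_card h1
      rw [card_erase_of_mem hM] at h2
      have h3 : 0 < A.card := card_pos.2 hne
      have h4 := hA.2
      omega
  · intro A _ B _ h
    rw [← phi_phi A, ← phi_phi B, h]

/-- **The exact value.** -/
theorem exact (n t : ℕ) (ht : 1 ≤ t) : r n t = ∑ i ∈ range t, n.choose i + 1 := by
  obtain ⟨s, rfl⟩ : ∃ s, t = s + 1 := ⟨t - 1, by omega⟩
  apply le_antisymm
  · exact r_le fun 𝓕 h => has_of_card (by omega)
  · exact (Nat.succ_le_succ (card_fam n s)).trans (lt_r (not_has_fam n s))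

end Pool.Agent.J6H37.DR
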